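import Mathlib
import Pool.Agent.TH784.RF.VS

/-!
# Infinite subgroups generated by a conjugate: the structure of a counterexample

Let `G = ⟨a, b⟩` be infinite. The question is whether `⟨a, b^g⟩` is infinite for infinitely many `g`,
if `a` and `b` are of finite order. We show that in a counterexample

* the centralisers of `a` and of `b` are finite;
* every infinite normal subgroup is of finite index;
* no subgroup of finite index is solvable;
* if `G` is residually finite, then `a` and `b` have orders at least `4`.

So the answer is positive for virtually solvable groups, for groups with an infinite normal subgroup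
of infinite index, and for residually finite groups one of whose generators has order `2` or `3`.

Proof. Let `X` be the set of the `g` with `⟨a, b^g⟩` infinite, and assume that it is finite. It contains
the centralisers of `a` and `b`. If `N` is an infinite normal subgroup, take `g ∈ N \ X`; then
`K = ⟨a, b^g⟩` is finite and `K N = G`.

Virtually solvable groups: by the second point and by passing to the quotient by a finite normal
subgroup we may assume that there is an abelian normal subgroup `A` of finite index. Let
`g, g' ∈ A \ X`, `x = b^g`, `b^{g'} = x n` with `n ∈ A`, and `K = ⟨a, x⟩`, `K' = ⟨a, x n⟩`. For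
`q ∈ G / A` choose `k ∈ K`, `k' ∈ K'` in the coset `q`; the power `c(q) = (k⁻¹ k') ^ (|K| |K'|)` does
not depend on the choice, and for `p ∈ K`, `p' ∈ K'` in the same coset
`c(q p) = p⁻¹ c(q) p (p⁻¹ p') ^ (|K| |K'|)`. So `z = ∏ c(q)` commutes with `a`, hence is of finite
order, and then `n` is of finite order. With `h = g g'⁻¹` one has `n = (b⁻¹ h b) h⁻¹`; a power of `h`
commutes with `b`, so `h` is of finite order. Hence `A` is torsion and finitely generated, so finite.

Residually finite groups, `a ^ 2 = 1` or `a ^ 3 = 1`: let `N` be normal of finite index with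
`C_N(a) = 1`. For `g ∈ N \ X` the element `a` acts without fixed points on the finite group
`⟨a, b^g⟩ ∩ N`, so this group is abelian (order 2), or every element commutes with its conjugates
(order 3). If `g` is in the small subgroup `M` of finite index, then this group maps onto `N / M`. So
`N` is abelian, or each of its elements commutes with its conjugates and `N` is solvable.
-/

set_option autoImplicit false

namespace Pool.Agent.Results.MP_fd6eef_al.CounterexampleStructure

/-- **Theorem.** Let `G` be an infinite group generated by `a` and `b` for which `⟨a, g⁻¹ b g⟩` is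
infinite for only finitely many `g ∈ G`. Then the centralisers of `a` and `b` are finite, every
infinite normal subgroup has finite index, no subgroup of finite index is solvable, and if `G` is
residually finite, then `a`, `b` have orders at least `4`. -/
theorem result (G : Type) [Group G] [Infinite G] (a b : G)
    (hgen : Subgroup.closure ({a, b} : Set G) = ⊤)
    (hX : {g : G | (Subgroup.closure ({a, g⁻¹ * b * g} : Set G) : Set G).Infinite}.Finite) :
    {c : G | c * a = a * c}.Finite ∧ {c : G | c * b = b * c}.Finite ∧
    (∀ N : Subgroup G, N.Normal → (N : Set G).Infinite → N.FiniteIndex) ∧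
    (∀ H : Subgroup G, H.FiniteIndex → ¬ Group.IsSolvable H) ∧
    ((∀ x : G, x ≠ 1 → ∃ N : Subgroup G, N.Normal ∧ N.FiniteIndex ∧ x ∉ N) →
      a ^ 2 ≠ 1 ∧ a ^ 3 ≠ 1 ∧ b ^ 2 ≠ 1 ∧ b ^ 3 ≠ 1) := by
  have hgen' : Subgroup.closure ({b, a} : Set G) = ⊤ := by
    rw [Set.pair_comm]
    exact hgen
  have hX' : {g : G | (Pool.Agent.TH784.RF.K b a g : Set G).Infinite}.Finite := by
    refine (hX.preimage (f := fun g : G => g⁻¹) inv_injective.injOn).subset ?_
    intro g hg
    exact Pool.Agent.TH784.RF.K_swap a b g hg
  obtain ⟨h1, h2⟩ := Pool.Agent.TH784.RF.cent_fin a b hgen hX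
  refine ⟨h1, h2, Pool.Agent.TH784.RF.normal_fin a b hgen hX,
    Pool.Agent.TH784.RF.vs a b hgen hX, fun hrf => ⟨fun h => ?_, fun h => ?_, fun h => ?_,
    fun h => ?_⟩⟩
  · exact Pool.Agent.TH784.RF.main a b (by rw [← pow_two, h]) hgen hrf hX
  · exact Pool.Agent.TH784.RF.three a b (by rw [← pow_two, ← pow_succ, h]) hgen hrf hX
  · exact Pool.Agent.TH784.RF.main b a (by rw [← pow_two, h]) hgen' hrf hX'
  · exact Pool.Agent.TH784.RF.three b a (by rw [← pow_two, ← pow_succ, h]) hgen' hrf hX'

end Pool.Agent.Results.MP_fd6eef_al.CounterexampleStructure
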