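import Mathlib
import Pool.Agent.TH784.RF.LE

/-!
# Infinite subgroups generated by a conjugate: groups with an infinite linear image

Let `G = ⟨a, b⟩` be a group which has a homomorphism to `GL_n(F)` with infinite image, for some field
`F` (of any characteristic) and some `n`. Then `⟨a, b^g⟩` is infinite for infinitely many `g ∈ G`. In
particular this holds for all infinite linear groups.

Proof. We may assume that `G` is an infinite subgroup of `GL_n(F)`. Assume that the set `X` of these
`g` is finite. The entries of `G` are in a finitely generated domain `S`. Reduction modulo a maximal
ideal (modulo two maximal ideals of different residue characteristics, if `F` is of characteristic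
zero) gives a normal subgroup `N` of finite index whose elements of finite order have orders powers of
the characteristic `p` of `F` (are trivial, if the characteristic is zero). Let `w` be a word with
`x = w(a, b) ∈ N`. For `g ∈ N` outside `X` the element `w(a, b^g)` is in `N` and in the finite group
`⟨a, b^g⟩`, so `(w(a, b^g) - 1) ^ n = 0` (`w(a, b^g) = 1` in characteristic zero). The entries of this
matrix are representative functions of `g ∈ N` (they are in a finite dimensional space of functions on
`N` which is invariant under translations), and a representative function of finite support on an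
infinite group is zero. So `(x - 1) ^ n = 0` (`x = 1`) for all `x ∈ N`. In characteristic zero `N` is
trivial. In characteristic `p` the images of `N` in `GL_n(S / m)` are finite `p`-groups, so the
products of `n` elements `x - 1` vanish modulo all maximal ideals `m` and hence vanish; as `N` is
finitely generated, it is finite.
-/

set_option autoImplicit false

namespace Pool.Agent.Results.MP_fd6eef_al.LinearGroups

open Pool.Agent.TH784.RF

/-- **Theorem.** Let `G` be a group generated by `a` and `b`, with a homomorphism to `GL_n(F)` of
infinite image, where `F` is a field. Then `⟨a, g⁻¹ b g⟩` is infinite for infinitely many `g ∈ G`. -/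
theorem result (G : Type) [Group G] (a b : G)
    (hgen : Subgroup.closure ({a, b} : Set G) = ⊤)
    (F : Type) [Field F] (n : ℕ) (ρ : G →* Matrix.GeneralLinearGroup (Fin n) F)
    (hρ : (Set.range ρ).Infinite) :
    {g : G | (Subgroup.closure ({a, g⁻¹ * b * g} : Set G) : Set G).Infinite}.Infinite := by
  intro hX
  let π : G →* ρ.range := ρ.rangeRestrict
  have hπ : Function.Surjective π := ρ.rangeRestrict_surjective
  have hinf : Infinite ρ.range := hρ.to_subtype
  have hgen' : Subgroup.closure ({π a, π b} : Set ρ.range) = ⊤ := by
    have h1 := MonoidHom.map_closure π ({a, b} : Set G)
    rw [hgen, Subgroup.map_top_of_surjective π hπ, Set.image_pair] at h1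
    exact h1.symm
  have hX' : {h : ρ.range | (K (π a) (π b) h : Set ρ.range).Infinite}.Finite := by
    refine (hX.image π).subset ?_
    intro h hh
    obtain ⟨g, rfl⟩ := hπ h
    refine ⟨g, ?_, rfl⟩
    intro hfin
    apply hh
    have h2 : K (π a) (π b) (π g) =
        (Subgroup.closure ({a, g⁻¹ * b * g} : Set G)).map π := by
      rw [K, MonoidHom.map_closure, Set.image_pair, map_mul, map_mul, map_inv]
    rw [h2, Subgroup.coe_map]
    exact hfin.image π
  let τ : ρ.range →* Matrix (Fin n) (Fin n) F := (Units.coeHom _).comp ρ.range.subtype
  have hτ : Function.Injective τ := Units.val_injective.comp Subtype.val_injective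
  obtain ⟨p, hp⟩ := CharP.exists F
  rcases CharP.char_is_prime_or_zero F p with h | h
  · have : Fact p.Prime := ⟨h⟩
    exact linear_p (π a) (π b) hgen' hX' p τ hτ
  · subst h
    have : CharZero F := CharP.charP_to_charZero F
    exact linear (π a) (π b) hgen' hX' τ hτ

end Pool.Agent.Results.MP_fd6eef_al.LinearGroups
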